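import Pool.Agent.TD.N.St

/-!
# Arrangement fibres: the output of the structure theorem, independent of the data ND0
-/

open scoped Topology NNReal

namespace Pool.Agent.TD

/-- The homomorphism `K[X_e : e ∈ B - e0] → A`, `X_e ↦ T e`. -/
noncomputable def phT {K A E : Type} [NormedField K] [CommRing A] [Algebra K A] (T : E → A)
    (J : Set E) : MvPolynomial J K →ₐ[K] A := MvPolynomial.aeval fun e : J => T e.1

/-- `F` is an arrangement fibre with the functions `T e`. -/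
structure ArrFib (K : Type) {A E : Type} [NormedField K] [CommRing A] [Algebra K A]
    (T : E → A) (ρ : E → ℝ≥0) (e0 : E) (B : Set E) (c0 : (Bᶜ : Set E) → K)
    (c : (Bᶜ : Set E) → (B \ {e0} : Set E) → K) (F : Set (Ber K A)) : Prop where
  cpt : IsCompact F
  ρpos : ∀ e, 0 < ρ e
  e0_mem : e0 ∈ B
  val : ∀ z ∈ F, ∀ e, z.v (T e) = ρ e
  bd0 : ∀ e, ‖c0 e‖₊ ≤ ρ e.1
  bd : ∀ e b, ‖c e b‖₊ * ρ b.1 ≤ ρ e.1
  image : Ber.res (phT T (B \ {e0})) '' F =
    ArrSet (fun b : (B \ {e0} : Set E) => ρ b.1) c0 c fun e => ρ e.1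
  inj : Set.InjOn (Ber.res (phT T (B \ {e0}))) F
  opn : ∀ z ∈ F, ∀ V ∈ 𝓝 z, Ber.res (phT T (B \ {e0})) '' V ∈ 𝓝 (Ber.res (phT T (B \ {e0})) z)
  dens : ∀ z ∈ F, Dens (phT T (B \ {e0})) z
  close : ∀ z ∈ F, ∀ e : (Bᶜ : Set E),
    z.v (T e.1 - phT T (B \ {e0}) (linf (c0 e) (c e))) < ρ e.1

variable {K A A2 I E : Type} [NormedField K] [CommRing A] [Algebra K A] [CommRing A2]
  [Algebra K A2]

theorem arrFib_of_str {D : NDat K A I E} (hD : D.Ok) {B : Set E} {c0 : (Bᶜ : Set E) → K}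
    {c : (Bᶜ : Set E) → (B \ {D.e0} : Set E) → K} (S : NDat.Str D B c0 c) :
    ArrFib K D.T D.ρ D.e0 B c0 c D.Fw where
  cpt := NDat.isCompact_Fw hD
  ρpos := hD.ρpos
  e0_mem := S.e0_mem
  val := fun _ hz e => NDat.v_T_Fw hD hz e
  bd0 := S.bd0
  bd := S.bd
  image := S.image
  inj := S.inj
  opn := S.opn
  dens := S.dens
  close := S.close

theorem phT_comp (g : A →ₐ[K] A2) (T : E → A) (J : Set E) (P : MvPolynomial J K) :
    phT (K := K) (fun e => g (T e)) J P = g (phT T J P) := by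
  unfold phT
  rw [← AlgHom.comp_apply]
  congr 1
  apply MvPolynomial.algHom_ext
  intro i
  simp

theorem res_phT (g : A →ₐ[K] A2) (T : E → A) (J : Set E) (z : Ber K A2) :
    Ber.res (phT (K := K) (fun e => g (T e)) J) z = Ber.res (phT T J) (Ber.res g z) := by
  apply Ber.ext_v
  intro P
  show z.v (phT (K := K) (fun e => g (T e)) J P) = z.v (g (phT T J P))
  rw [phT_comp]

/-- Arrangement fibres go down along `M(A2) → M(A)`. -/
theorem ArrFib.descend (g : A →ₐ[K] A2) {T : E → A} {ρ : E → ℝ≥0} {e0 : E} {B : Set E}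
    {c0 : (Bᶜ : Set E) → K} {c : (Bᶜ : Set E) → (B \ {e0} : Set E) → K} {F2 : Set (Ber K A2)}
    (h : ArrFib K (fun e => g (T e)) ρ e0 B c0 c F2) :
    ArrFib K T ρ e0 B c0 c (Ber.res g '' F2) where
  cpt := h.cpt.image (Ber.res_continuous g)
  ρpos := h.ρpos
  e0_mem := h.e0_mem
  val := by
    rintro _ ⟨z, hz, rfl⟩ e
    exact h.val z hz e
  bd0 := h.bd0
  bd := h.bd
  image := by
    rw [Set.image_image, ← h.image]
    exact Set.image_congr fun z _ => (res_phT g T _ z).symm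
  inj := by
    rintro _ ⟨z, hz, rfl⟩ _ ⟨z', hz', rfl⟩ e
    rw [← res_phT, ← res_phT] at e
    rw [h.inj hz hz' e]
  opn := by
    rintro _ ⟨z, hz, rfl⟩ V hV
    have h1 := h.opn z hz _ ((Ber.res_continuous g).continuousAt hV)
    rw [res_phT] at h1
    refine Filter.mem_of_superset h1 ?_
    rintro _ ⟨z', hz', rfl⟩
    exact ⟨_, hz', (res_phT g T _ z').symm⟩
  dens := by
    rintro _ ⟨z, hz, rfl⟩ a ε hε
    obtain ⟨b, d, hd, hlt⟩ := h.dens z hz (g a) ε hε
    rw [phT_comp] at hd hlt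
    rw [phT_comp] at hlt
    refine ⟨b, d, hd, ?_⟩
    show z.v (g (phT T (B \ {e0}) d * a - phT T (B \ {e0}) b)) < ε * z.v (g (phT T (B \ {e0}) d))
    rw [map_sub, map_mul]
    exact hlt
  close := by
    rintro _ ⟨z, hz, rfl⟩ e
    have h1 := h.close z hz e
    rw [phT_comp, ← map_sub] at h1
    exact h1

end Pool.Agent.TD
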