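import Pool.Agent.TD.Y.Restr

/-!
# X3: transport of local polyhedrality
-/

open scoped ContDiff Topology

namespace Pool.Agent.TD

namespace X3

variable {X Φ X' Φ' : Type} [TopologicalSpace X] [TopologicalSpace X'] {L : LogSpace X Φ}
  {L' : LogSpace X' Φ'}

/-- Finitely many functions near `z` are affine combinations of functions of `L'`. -/
theorem affine_family (m : Mor L L') {z : X} (h : m.AffAt z) (u : Finset Φ)
    (hu : ∀ f ∈ u, z ∈ L.dom f) : ∃ (u' : Finset Φ') (A : (u' → ℝ) →ᵃ[ℝ] (u → ℝ)),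
      (∀ f' ∈ u', m.toFun z ∈ L'.dom f') ∧
      ∀ᶠ z' in 𝓝 z, L.trop u z' = A (L'.trop u' (m.toFun z')) := by
  classical
  have hsf : ∀ f : u, ∃ (n : ℕ) (g : Fin n → Φ') (a : Fin n → ℝ) (b : ℝ),
      (∀ i, m.toFun z ∈ L'.dom (g i)) ∧
      ∀ᶠ z' in 𝓝 z, L.lf f z' = b + ∑ i, a i * L.lf (m.ix (g i)) z' := fun f => h f.1 (hu f.1 f.2)
  choose n g a b hg he using hsf
  let u' : Finset Φ' := Finset.univ.biUnion fun f : u => Finset.univ.image (g f)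
  have hgu : ∀ f i, g f i ∈ u' := fun f i => Finset.mem_biUnion.2
    ⟨f, Finset.mem_univ _, Finset.mem_image_of_mem _ (Finset.mem_univ _)⟩
  let B : (u' → ℝ) →ₗ[ℝ] (u → ℝ) := LinearMap.pi fun f =>
    ∑ i, a f i • LinearMap.proj (⟨g f i, hgu f i⟩ : u')
  let A : (u' → ℝ) →ᵃ[ℝ] (u → ℝ) := B.toAffineMap + AffineMap.const ℝ _ b
  have hA : ∀ (y : u' → ℝ) (f : u), A y f = (∑ i, a f i * y ⟨g f i, hgu f i⟩) + b f := by
    intro y f
    show B y f + b f = _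
    congr 1
    show (∑ i, a f i • (LinearMap.proj (⟨g f i, hgu f i⟩ : u') : (u' → ℝ) →ₗ[ℝ] ℝ)) y = _
    rw [LinearMap.sum_apply]
    rfl
  refine ⟨u', A, ?_, ?_⟩
  · intro f' hf'
    obtain ⟨f, -, hf⟩ := Finset.mem_biUnion.1 hf'
    obtain ⟨i, -, rfl⟩ := Finset.mem_image.1 hf
    exact hg f i
  · have h1 : ∀ᶠ z' in 𝓝 z, ∀ f : u, L.lf f z' = b f + ∑ i, a f i * L.lf (m.ix (g f i)) z' :=
      Filter.eventually_all.2 he
    have h2 : ∀ᶠ z' in 𝓝 z, ∀ f : u, ∀ i, m.toFun z' ∈ L'.dom (g f i) :=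
      Filter.eventually_all.2 fun f => Filter.eventually_all.2 fun i =>
        m.cont.continuousAt.eventually ((L'.isOpen_dom _).mem_nhds (hg f i))
    filter_upwards [h1, h2] with z' h3 h4
    funext f
    rw [hA]
    show L.lf f z' = _
    rw [h3 f, add_comm]
    congr 1
    refine Finset.sum_congr rfl fun i _ => ?_
    rw [m.lf_eq _ _ (h4 f i)]
    rfl

/-- Transport of `FinConv` from `L'` to `L`. -/
theorem finConv_of_aff (m : Mor L L') {z : X} (h : m.AffAt z)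
    (ho : ∀ V ∈ 𝓝 z, m.toFun '' V ∈ 𝓝 (m.toFun z)) (hF : L'.FinConv (m.toFun z)) :
    L.FinConv z := by
  classical
  intro u hu V hV
  obtain ⟨u', A, hu', hA⟩ := affine_family m h u hu
  have hd : ∀ᶠ z' in 𝓝 z, ∀ f ∈ u, z' ∈ L.dom f := by
    rw [Filter.eventually_all_finset]
    exact fun f hf => (L.isOpen_dom f).mem_nhds (hu f hf)
  let V1 : Set X := V ∩ {z' | (L.trop u z' = A (L'.trop u' (m.toFun z'))) ∧ ∀ f ∈ u, z' ∈ L.dom f}
  have hV1 : V1 ∈ 𝓝 z := Filter.inter_mem hV (hA.and hd)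
  obtain ⟨V', hV', hV'V, -, S, hS, hSc, hSe⟩ := hF u' hu' _ (ho V1 hV1)
  refine ⟨V1 ∩ m.toFun ⁻¹' V', Filter.inter_mem hV1 (m.cont.continuousAt hV'),
    fun z' hz' => hz'.1.1, fun f hf z' hz' => hz'.1.2.2 f hf, (fun σ => A '' σ) '' S,
    hS.image _, ?_, ?_⟩
  · rintro _ ⟨σ, hσ, rfl⟩
    exact (hSc σ hσ).affine_image A
  · ext y
    constructor
    · rintro ⟨z', ⟨hz1, hz2⟩, rfl⟩
      have h1 : L'.trop u' (m.toFun z') ∈ ⋃₀ S := by
        rw [← hSe]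
        exact ⟨_, hz2, rfl⟩
      obtain ⟨σ, hσ, hσ'⟩ := h1
      exact ⟨A '' σ, ⟨σ, hσ, rfl⟩, ⟨_, hσ', hz1.2.1.symm⟩⟩
    · rintro ⟨_, ⟨σ, hσ, rfl⟩, ⟨x, hx, rfl⟩⟩
      have h1 : x ∈ L'.trop u' '' V' := by
        rw [hSe]
        exact ⟨σ, hσ, hx⟩
      obtain ⟨y', hy', rfl⟩ := h1
      obtain ⟨z', hz', rfl⟩ := hV'V hy'
      exact ⟨z', ⟨hz', hy'⟩, hz'.2.1⟩

/-- Transport of `StarAt` from `L'` to `L`. -/
theorem starAt_of_aff (m : Mor L L') {z : X} (h : m.AffAt z)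
    (ho : ∀ V ∈ 𝓝 z, m.toFun '' V ∈ 𝓝 (m.toFun z)) (hF : L'.StarAt (m.toFun z)) :
    L.StarAt z := by
  classical
  intro u hu V hV
  obtain ⟨u', A, hu', hA⟩ := affine_family m h u hu
  have hd : ∀ᶠ z' in 𝓝 z, ∀ f ∈ u, z' ∈ L.dom f := by
    rw [Filter.eventually_all_finset]
    exact fun f hf => (L.isOpen_dom f).mem_nhds (hu f hf)
  let V1 : Set X := V ∩ {z' | (L.trop u z' = A (L'.trop u' (m.toFun z'))) ∧ ∀ f ∈ u, z' ∈ L.dom f}
  have hV1 : V1 ∈ 𝓝 z := Filter.inter_mem hV (hA.and hd)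
  obtain ⟨V', hV', hV'V, -, hst⟩ := hF u' hu' _ (ho V1 hV1)
  refine ⟨V1 ∩ m.toFun ⁻¹' V', Filter.inter_mem hV1 (m.cont.continuousAt hV'),
    fun z' hz' => hz'.1.1, fun f hf z' hz' => hz'.1.2.2 f hf, ?_⟩
  have e1 : L.trop u '' (V1 ∩ m.toFun ⁻¹' V') = A '' (L'.trop u' '' V') := by
    ext y
    constructor
    · rintro ⟨z', ⟨hz1, hz2⟩, rfl⟩
      exact ⟨_, ⟨_, hz2, rfl⟩, hz1.2.1.symm⟩
    · rintro ⟨_, ⟨y', hy', rfl⟩, rfl⟩
      obtain ⟨z', hz', rfl⟩ := hV'V hy'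
      exact ⟨z', ⟨hz', hy'⟩, hz'.2.1⟩
  rw [e1, (mem_of_mem_nhds hV1).2.1]
  exact hst.affine_image A

theorem finConv_of_restr {W : Set X} (hW : IsOpen W) (z : W) (h : (L.restr W).FinConv z) :
    L.FinConv z.1 := by
  intro u hu V hV
  obtain ⟨V', hV', hV'V, hd, S, hS, hSc, hSe⟩ := h u hu _
    (continuous_subtype_val.continuousAt hV)
  refine ⟨Subtype.val '' V', hW.isOpenMap_subtype_val.image_mem_nhds hV', ?_, ?_, S, hS, hSc, ?_⟩
  · rintro _ ⟨z', hz', rfl⟩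
    exact hV'V hz'
  · rintro f hf _ ⟨z', hz', rfl⟩
    exact hd f hf hz'
  · rw [← hSe]
    ext y
    constructor
    · rintro ⟨_, ⟨z', hz', rfl⟩, rfl⟩
      exact ⟨z', hz', rfl⟩
    · rintro ⟨z', hz', rfl⟩
      exact ⟨_, ⟨z', hz', rfl⟩, rfl⟩

theorem starAt_of_restr {W : Set X} (hW : IsOpen W) (z : W) (h : (L.restr W).StarAt z) :
    L.StarAt z.1 := by
  intro u hu V hV
  obtain ⟨V', hV', hV'V, hd, hst⟩ := h u hu _ (continuous_subtype_val.continuousAt hV)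
  refine ⟨Subtype.val '' V', hW.isOpenMap_subtype_val.image_mem_nhds hV', ?_, ?_, ?_⟩
  · rintro _ ⟨z', hz', rfl⟩
    exact hV'V hz'
  · rintro f hf _ ⟨z', hz', rfl⟩
    exact hd f hf hz'
  · have e : L.trop u '' (Subtype.val '' V') = (L.restr W).trop u '' V' := by
      rw [Set.image_image]
      rfl
    rw [e]
    exact hst

end X3

end Pool.Agent.TD
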