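import Pool.Agent.TD.N.Defs
import Pool.Agent.TD.Y.Loc1
import Pool.Agent.TD.Y.Chart2
import Pool.Agent.TD.X3.FinConv
import Pool.Agent.TD.BG.All

/-!
# X3: the morphism from a chart of `X^an` to `M(R)`; density of fractions gives `AffAt`
-/

open scoped ContDiff Topology
open AlgebraicGeometry CategoryTheory

namespace Pool.Agent.TD

namespace X3

variable {K : Type} [NormedField K] {X : Scheme.{0}} {ι : K →+* Γ(X, ⊤)} {U : X.Opens}
  {R : Type} [CommRing R] [Algebra K R]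

/-- The morphism `U^an → M(R)` given by a homomorphism `R → Γ(X, U)`. -/
noncomputable def chMor (φ : R →+* Γ(X, U)) (hφ : ∀ c, φ (algebraMap K R c) = stK ι U c) :
    Mor ((anLS X ι).restr (An.opn ι U)) (berLS K R) where
  toFun := An.toBer φ hφ
  cont := An.toBer_continuous φ hφ
  ix f := ⟨U, φ f⟩
  dom_sub _ z h := ⟨z.2, h⟩
  lf_eq _ _ _ := rfl

theorem chMor_v (φ : R →+* Γ(X, U)) (hφ : ∀ c, φ (algebraMap K R c) = stK ι U c)
    (z : An.opn ι U) (f : R) : ((chMor φ hφ).toFun z).v f = An.absv U (φ f) z.1 := rfl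

/-- Fractions of `R` are dense in the functions on `U` at `z`. -/
def DensAt (φ : R →+* Γ(X, U)) (z : An.opn ι U) : Prop :=
  ∀ (a : Γ(X, U)) (ε : ℝ), 0 < ε → ∃ b c : R, An.absv U (φ c) z.1 ≠ 0 ∧
    An.absv U (φ c * a - φ b) z.1 < ε * An.absv U (φ c) z.1

theorem exists_frac_of_dens (φ : R →+* Γ(X, U)) (z : An.opn ι U) (h : DensAt φ z)
    (g : Γ(X, U)) (hg : An.absv U g z.1 ≠ 0) : ∃ P Q : R, An.absv U (φ P) z.1 ≠ 0 ∧
      An.absv U (φ Q) z.1 ≠ 0 ∧ ∀ᶠ z' : An.opn ι U in 𝓝 z, Real.log (An.absv U g z'.1) =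
        Real.log (An.absv U (φ P) z'.1) - Real.log (An.absv U (φ Q) z'.1) := by
  have hg0 : 0 < An.absv U g z.1 := lt_of_le_of_ne (An.absv_nonneg _ _ _) hg.symm
  obtain ⟨P, Q, hQ, hlt⟩ := h g _ hg0
  have hlt' : An.absv U (φ Q * g - φ P) z.1 < An.absv U (φ Q * g) z.1 := by
    rw [An.absv_mul, mul_comm (An.absv U (φ Q) z.1)]
    exact hlt
  have hcont : ∀ g : Γ(X, U), Continuous fun z' : An.opn ι U => An.absv U g z'.1 := fun g =>
    (An.continuousOn_absv (ι := ι) U g).domRestrict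
  have hP : An.absv U (φ P) z.1 ≠ 0 := by
    rw [← Toric.absv_eq_of_sub_lt hlt', An.absv_mul]
    exact mul_ne_zero hQ hg
  refine ⟨P, Q, hP, hQ, ?_⟩
  have h1 : ∀ᶠ z' : An.opn ι U in 𝓝 z,
      An.absv U (φ Q * g - φ P) z'.1 < An.absv U (φ Q * g) z'.1 :=
    (hcont _).continuousAt.eventually_lt (hcont _).continuousAt hlt'
  have h2 : ∀ᶠ z' : An.opn ι U in 𝓝 z, An.absv U g z'.1 ≠ 0 :=
    (hcont _).continuousAt.eventually_ne hg
  have h3 : ∀ᶠ z' : An.opn ι U in 𝓝 z, An.absv U (φ Q) z'.1 ≠ 0 :=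
    (hcont _).continuousAt.eventually_ne hQ
  filter_upwards [h1, h2, h3] with z' h1 h2 h3
  rw [← Toric.absv_eq_of_sub_lt h1, An.absv_mul, Real.log_mul h3 h2]
  ring

/-- Density of the fractions of `R` gives `AffAt`. -/
theorem chMor_affAt (hU : IsAffineOpen U) (φ : R →+* Γ(X, U))
    (hφ : ∀ c, φ (algebraMap K R c) = stK ι U c) (z : An.opn ι U) (hD : DensAt φ z) :
    (chMor φ hφ).AffAt z := by
  rintro ⟨V, f⟩ ⟨hV, hf⟩
  obtain ⟨g, h, hh, hgh⟩ := An.exists_frac hU V f z.2 hV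
  have hf' : An.absv V f z.1 ≠ 0 := hf
  have hg : An.absv U g z.1 ≠ 0 := by
    intro h0
    rw [(hgh z.1 z.2 hh).2, h0, zero_div] at hf'
    exact hf' rfl
  obtain ⟨P₁, Q₁, hP₁, hQ₁, he₁⟩ := exists_frac_of_dens φ z hD g hg
  obtain ⟨P₂, Q₂, hP₂, hQ₂, he₂⟩ := exists_frac_of_dens φ z hD h hh
  have hcont : ∀ g : Γ(X, U), Continuous fun z' : An.opn ι U => An.absv U g z'.1 := fun g =>
    (An.continuousOn_absv (ι := ι) U g).domRestrict
  have h1 : ∀ᶠ z' : An.opn ι U in 𝓝 z, An.absv U g z'.1 ≠ 0 :=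
    (hcont _).continuousAt.eventually_ne hg
  have h2 : ∀ᶠ z' : An.opn ι U in 𝓝 z, An.absv U h z'.1 ≠ 0 :=
    (hcont _).continuousAt.eventually_ne hh
  refine ⟨4, ![P₁, Q₁, P₂, Q₂], ![1, -1, -1, 1], 0, ?_, ?_⟩
  · intro i
    fin_cases i
    · exact hP₁
    · exact hQ₁
    · exact hP₂
    · exact hQ₂
  · filter_upwards [he₁, he₂, h1, h2] with z' he₁ he₂ h1 h2
    show Real.log (An.absv V f z'.1) = 0 + ∑ i : Fin 4, (![1, -1, -1, 1] : Fin 4 → ℝ) i *
      Real.log (An.absv U (φ ((![P₁, Q₁, P₂, Q₂] : Fin 4 → R) i)) z'.1)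
    rw [(hgh z'.1 z'.2 h2).2, Real.log_div h1 h2, he₁, he₂, Fin.sum_univ_four]
    simp only [Matrix.cons_val]
    ring

/-- The ring of an affine chart is dense in itself. -/
theorem densAt_iso (φ : R ≃+* Γ(X, U)) (z : An.opn ι U) :
    DensAt (R := R) φ.toRingHom z := by
  intro a ε hε
  refine ⟨φ.symm a, 1, ?_, ?_⟩
  · show An.absv U (φ 1) z.1 ≠ 0
    rw [map_one, An.absv_one z.2]
    exact one_ne_zero
  · show An.absv U (φ 1 * a - φ (φ.symm a)) z.1 < ε * An.absv U (φ 1) z.1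
    rw [map_one, one_mul, φ.apply_symm_apply, sub_self, An.absv_zero, An.absv_one z.2, mul_one]
    exact hε

/-- Local polyhedrality of `X^an` at the points of an affine chart of finite type. -/
theorem an_finConv [IsUltrametricDist K] (hU : IsAffineOpen U)
    (hft : (stK ι U).FiniteType) (z : An X ι) (hz : z.pt ∈ U) : (anLS X ι).FinConv z := by
  letI : Algebra K Γ(X, U) := (stK ι U).toAlgebra
  haveI : Algebra.FiniteType K Γ(X, U) := hft
  have hφ : ∀ c, (RingEquiv.refl Γ(X, U)).toRingHom (algebraMap K Γ(X, U) c) = stK ι U c :=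
    fun _ => rfl
  have ho := (An.toBer_homeo (ι := ι) hU (RingEquiv.refl Γ(X, U)) hφ).isOpenMap
  exact finConv_of_restr (An.isOpen_opn U) ⟨z, hz⟩ (finConv_of_aff
    (chMor (RingEquiv.refl Γ(X, U)).toRingHom hφ)
    (chMor_affAt hU _ hφ ⟨z, hz⟩ (densAt_iso (RingEquiv.refl Γ(X, U)) ⟨z, hz⟩))
    (fun V hV => ho.image_mem_nhds hV) (BG.sta K Γ(X, U) _).2)

end X3

end Pool.Agent.TD
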