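import Pool.Agent.TD.U.Desc1
import Pool.Agent.TD.Y.Fib

/-!
# X4: injectivity of the pull back of closed forms of type `(p,0)`
-/

open scoped ContDiff Topology

namespace Pool.Agent.TD

namespace X3

variable {X Φ X' Φ' : Type} [TopologicalSpace X] [TopologicalSpace X'] {L : LogSpace X Φ}
  {L' : LogSpace X' Φ'}

/-- Constant germs are germs of constant forms. -/
theorem Lp_cst (L : LogSpace X Φ) {z : X} {p : ℕ} {c : L.Stalk p 0 z} (hc : c ∈ L.Lp p z) :
    ∃ θ : Raw Φ p 0, IsCst θ ∧ ∃ h : L.SFat z θ, c = L.germ θ h := by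
  classical
  unfold LogSpace.Lp at hc
  induction hc using Submodule.span_induction with
  | mem x hx =>
    obtain ⟨f, hf, rfl⟩ := hx
    have h1 := L.symS_cstM (Finset.univ.image f) p (fun i => L.dlS (f i) (hf i)) (fun i =>
      ⟨dlg (f i), isCst_dlg (f i), isSF_dlg (Finset.mem_image_of_mem f (Finset.mem_univ i)),
        ⟨{f i}, isSF_dlg (Finset.mem_singleton_self (f i)), by simpa using hf i⟩, rfl⟩)
    obtain ⟨θ, h2, -, h3, h4⟩ := h1
    exact ⟨θ, h2, h3, h4⟩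
  | zero => exact ⟨0, isCst_zero, LogSpace.SFat.zero L, L.germ_zero.symm⟩
  | add x y _ _ hx hy =>
    obtain ⟨θ, h1, h2, rfl⟩ := hx
    obtain ⟨η, k1, k2, rfl⟩ := hy
    exact ⟨θ + η, h1.add k1, h2.add k2, (L.germ_add h2 k2).symm⟩
  | smul c x _ hx =>
    obtain ⟨θ, h1, h2, rfl⟩ := hx
    exact ⟨c • θ, h1.smul c, h2.smul c, (L.germ_smul c h2).symm⟩

/-- Injectivity of the pull back of closed forms of type `(p,0)` along a proper surjective
morphism. -/
theorem inj_of_descend (m : Mor L' L) {z : X} (hst : L.StarAt z)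
    (hsur : ∃ V ∈ 𝓝 z, V ⊆ Set.range m.toFun) (hc : IsCompact (m.toFun ⁻¹' {z}))
    (hp : ∀ W : Set X', IsOpen W → m.toFun ⁻¹' {z} ⊆ W → ∃ V ∈ 𝓝 z, m.toFun ⁻¹' V ⊆ W)
    (hF : ∀ z', m.toFun z' = z → L'.FinConv z') {p : ℕ} (a : L.Stalk p 0 z)
    (ha : L.ddS p 0 z a = 0) (h : ∀ z' (e : m.toFun z' = z), m.pullY e p 0 a = 0) : a = 0 := by
  obtain ⟨θ, hθ, hs, rfl⟩ := Lp_cst L (L.poincare0 hst a ha)
  rw [L.germ_eq_zero]
  refine m.descend hsur hc hp hF hθ hs fun z' hz' => ?_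
  have h1 := h z' hz'
  rw [Mor.pullY_germ, L'.germ_eq_zero] at h1
  exact h1

end X3

end Pool.Agent.TD
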