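import Pool.Agent.TD.X3.Transfer
import Pool.Agent.TD.Y.Cong
import Pool.Agent.TD.F.Cst

/-!
# X3: closed forms of type `(p,0)` near a fibre
-/

open scoped ContDiff Topology

namespace Pool.Agent.TD

namespace X3

variable {X Φ X' Φ' : Type} [TopologicalSpace X] [TopologicalSpace X'] {L : LogSpace X Φ}
  {L' : LogSpace X' Φ'}

/-- The germ of a constant form only depends on the functions near the point. -/
theorem germ_cstR_congr (L : LogSpace X Φ) {N p : ℕ} {z : X} (g g' : Fin N → Φ)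
    (hg : ∀ i, z ∈ L.dom (g i)) (hg' : ∀ i, z ∈ L.dom (g' i))
    (e : ∀ i, ∀ᶠ z' in 𝓝 z, L.lf (g i) z' = L.lf (g' i) z')
    (α : (Fin N → ℝ) [⋀^Fin p]→L[ℝ] ℝ) (h : L.SFat z (cstR g α)) (h' : L.SFat z (cstR g' α)) :
    L.germ (cstR g α) h = L.germ (cstR g' α) h' := by
  classical
  have hs : IsSF (Finset.univ : Finset (Fin N)) (cstR (id : Fin N → Fin N) α) := by
    have := isSF_cstR (id : Fin N → Fin N) α
    rwa [Finset.image_id] at this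
  exact L.germ_pullR_congr g g' hs (fun i _ => hg i) (fun i _ => hg' i) (fun i _ => e i) h h'

variable {W : Set X} {m : Mor (L.restr W) L'} {F : Set X} (h : Fib m F) {p : ℕ}

include h

/-- Closed forms of type `(p,0)` near `F` from those near `m(F)`. -/
theorem Fib.zero [T2Space X'] [LocallyCompactSpace X'] (hC' : L'.CutOff) (Z : Set X')
    (hZ : ∀ y, y ∈ Z ↔ ∃ z : W, z.1 ∈ F ∧ m.toFun z = y) {N : ℕ} (g' : Fin N → Φ')
    (g : Fin N → Φ) (hd' : ∀ y ∈ Z, ∀ i, y ∈ L'.dom (g' i)) (hd : ∀ z ∈ F, ∀ i, z ∈ L.dom (g i))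
    (hlf : ∀ z ∈ F, ∀ i, ∀ᶠ z' in 𝓝 z, ∀ hz' : z' ∈ W, L.lf (g i) z' = L'.lf (g' i) (m.toFun ⟨z', hz'⟩))
    (hcst : ∀ c' : L'.G p 0, (∀ y ∈ Z, L'.ddS p 0 y (c'.1 y) = 0) →
      ∃ α : (Fin N → ℝ) [⋀^Fin p]→L[ℝ] ℝ, ∀ y ∈ Z, ∃ k : L'.SFat y (cstR g' α),
        c'.1 y = L'.germ (cstR g' α) k)
    (c : L.G p 0) (hc : ∀ z ∈ F, L.ddS p 0 z (c.1 z) = 0) :
    ∃ α : (Fin N → ℝ) [⋀^Fin p]→L[ℝ] ℝ, ∀ z ∈ F, ∃ k : L.SFat z (cstR g α),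
      c.1 z = L.germ (cstR g α) k := by
  classical
  obtain ⟨c', hcc⟩ := h.push hC' c
  obtain ⟨α, hα⟩ := hcst c' (fun y hy => by
    obtain ⟨z, hz, rfl⟩ := (hZ y).1 hy
    exact h.closed hcc hc z hz)
  refine ⟨α, fun z hz => ?_⟩
  have hzW : z ∈ W := h.sub hz
  have hy : m.toFun ⟨z, hzW⟩ ∈ Z := (hZ _).2 ⟨⟨z, hzW⟩, hz, rfl⟩
  obtain ⟨k', e'⟩ := hα _ hy
  have k : L.SFat z (cstR g α) := L.sfat_cstR (hd z hz) α
  refine ⟨k, ?_⟩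
  apply (L.incl_bij (p := p) (q := 0) h.isOpen ⟨z, hzW⟩).1
  rw [← hcc ⟨z, hzW⟩ hz, e', Mor.pullS_germ]
  have k2 : (L.restr W).SFat ⟨z, hzW⟩ (cstR g α) := k
  refine Eq.trans ?_ (show (L.restr W).germ (cstR g α) k2 = _ from rfl)
  refine germ_cstR_congr (L.restr W) (fun i => m.ix (g' i)) g (fun i => m.dom_sub _ _ (hd' _ hy i))
    (fun i => hd z hz i) (fun i => ?_) α (m.sfat k') k2
  have h1 : ∀ᶠ z' : W in 𝓝 ⟨z, hzW⟩, ∀ hz' : z'.1 ∈ W,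
      L.lf (g i) z'.1 = L'.lf (g' i) (m.toFun ⟨z'.1, hz'⟩) :=
    (continuous_subtype_val.continuousAt (x := (⟨z, hzW⟩ : W))).eventually
      (p := fun z' : X => ∀ hz' : z' ∈ W, L.lf (g i) z' = L'.lf (g' i) (m.toFun ⟨z', hz'⟩))
      (hlf z hz i)
  have h2 : ∀ᶠ z' : W in 𝓝 ⟨z, hzW⟩, m.toFun z' ∈ L'.dom (g' i) :=
    m.cont.continuousAt.eventually ((L'.isOpen_dom (g' i)).mem_nhds (hd' _ hy i))
  filter_upwards [h1, h2] with z' h3 h4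
  rw [m.lf_eq _ _ h4]
  exact (h3 z'.2).symm

end X3

end Pool.Agent.TD
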