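import Pool.Agent.TD.X3.Arr
import Pool.Agent.TD.X3.ArrFib
import Pool.Agent.TD.X3.Zero
import Pool.Agent.TD.X3.Chart
import Pool.Agent.TD.AR.Adapt

/-!
# X3: forms near the fibres of the tropicalization of a scheme

`φ : A ≃ Γ(X, U)` an affine chart, `F ⊆ M(A)` an arrangement fibre with the functions `T e`
(`ArrFib`), `Fset φ F` the corresponding subset of `X^an`.
-/

open scoped ContDiff Topology NNReal
open AlgebraicGeometry CategoryTheory

namespace Pool.Agent.TD

namespace X3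

variable {K A E : Type} [NormedField K] [CommRing A] [Algebra K A]
  {X : Scheme.{0}} {ι : K →+* Γ(X, ⊤)} {U : X.Opens}

/-- The points of `X^an` which correspond to the points of a subset of `M(A)`. -/
def Fset (φ : A →+* Γ(X, U)) (hφ : ∀ c, φ (algebraMap K A c) = stK ι U c) (S : Set (Ber K A)) :
    Set (An X ι) := {z | ∃ h : z ∈ An.opn ι U, An.toBer φ hφ ⟨z, h⟩ ∈ S}

theorem isCompact_Fset (hU : IsAffineOpen U) (φ : A ≃+* Γ(X, U))
    (hφ : ∀ c, φ (algebraMap K A c) = stK ι U c) {S : Set (Ber K A)} (hS : IsCompact S) :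
    IsCompact (Fset φ.toRingHom hφ S) := by
  have h1 := ((An.toBer_homeo (ι := ι) hU φ hφ).homeomorph).isCompact_preimage.2 hS
  have h2 := h1.image (continuous_subtype_val (p := fun z => z ∈ An.opn ι U))
  convert h2 using 1
  ext z
  constructor
  · rintro ⟨h, hz⟩
    exact ⟨⟨z, h⟩, hz, rfl⟩
  · rintro ⟨⟨z', h⟩, hz, rfl⟩
    exact ⟨h, hz⟩

section arr

variable {T : E → A} {ρ : E → ℝ≥0} {e0 : E} {B : Set E} {c0 : (Bᶜ : Set E) → K}
  {c : (Bᶜ : Set E) → (B \ {e0} : Set E) → K} {F : Set (Ber K A)}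

/-- The homomorphism `K[T_b : b ∈ J] → Γ(X, U)`. -/
noncomputable def phX (K : Type) {A E : Type} [NormedField K] [CommRing A] [Algebra K A]
    {X : Scheme.{0}} {U : X.Opens} (T : E → A) (J : Set E) (φ : A →+* Γ(X, U)) :
    MvPolynomial J K →+* Γ(X, U) :=
  φ.comp (phT T J).toRingHom

theorem phX_alg (T : E → A) (J : Set E) (φ : A →+* Γ(X, U))
    (hφ : ∀ c, φ (algebraMap K A c) = stK ι U c) (a : K) :
    phX K T J φ (algebraMap K _ a) = stK ι U a := by
  show φ ((phT T J) (algebraMap K _ a)) = _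
  rw [AlgHom.commutes, hφ]

/-- The morphism `U^an → M(K[T_b : b ∈ J])`. -/
noncomputable def mX (T : E → A) (J : Set E) (φ : A →+* Γ(X, U))
    (hφ : ∀ c, φ (algebraMap K A c) = stK ι U c) :
    Mor ((anLS X ι).restr (An.opn ι U)) (berLS K (MvPolynomial J K)) :=
  chMor (phX K T J φ) (phX_alg T J φ hφ)

theorem mX_toFun (J : Set E) (φ : A →+* Γ(X, U)) (hφ : ∀ c, φ (algebraMap K A c) = stK ι U c)
    (z : An.opn ι U) : (mX T J φ hφ).toFun z =
      Ber.res (phT T J) (An.toBer φ hφ z) := rfl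

theorem fib_of_arr (S : ArrFib K T ρ e0 B c0 c F) (hU : IsAffineOpen U)
    (φ : A ≃+* Γ(X, U)) (hφ : ∀ c, φ (algebraMap K A c) = stK ι U c) :
    Fib (mX T (B \ {e0}) φ.toRingHom hφ) (Fset φ.toRingHom hφ F) where
  isOpen := An.isOpen_opn U
  sub := fun z ⟨h, _⟩ => h
  cpt := isCompact_Fset hU φ hφ S.cpt
  aff := by
    rintro z ⟨h, hz⟩
    refine chMor_affAt hU _ _ z ?_
    intro a ε hε
    obtain ⟨b, d, hd, hlt⟩ := S.dens _ hz (φ.symm a) ε hε
    refine ⟨b, d, hd, ?_⟩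
    have e1 : An.absv U (phX K T (B \ {e0}) φ.toRingHom d * a -
        phX K T (B \ {e0}) φ.toRingHom b) z.1 =
        (An.toBer φ.toRingHom hφ z).v (phT T (B \ {e0}) d * φ.symm a - phT T (B \ {e0}) b) := by
      show _ = An.absv U (φ (phT T (B \ {e0}) d * φ.symm a - phT T (B \ {e0}) b)) z.1
      rw [map_sub, map_mul, φ.apply_symm_apply]
      rfl
    rw [e1]
    exact hlt
  opn := by
    rintro z ⟨h, hz⟩ V hV
    have h1 : An.toBer φ.toRingHom hφ '' V ∈ 𝓝 (An.toBer φ.toRingHom hφ z) :=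
      ((An.toBer_homeo (ι := ι) hU φ hφ).isOpenMap).image_mem_nhds hV
    have h2 := S.opn _ hz _ h1
    rw [Set.image_image] at h2
    exact h2
  inj := by
    rintro z z' ⟨h, hz⟩ ⟨h', hz'⟩ e
    exact (An.toBer_homeo (ι := ι) hU φ hφ).injective (S.inj hz hz' e)

theorem image_iff (S : ArrFib K T ρ e0 B c0 c F) (φ : A ≃+* Γ(X, U))
    (hφ : ∀ c, φ (algebraMap K A c) = stK ι U c) (hU : IsAffineOpen U)
    (y : Ber K (MvPolynomial (B \ {e0} : Set E) K)) :
    y ∈ ArrSet (fun b : (B \ {e0} : Set E) => ρ b.1) c0 c (fun e => ρ e.1) ↔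
      ∃ z : An.opn ι U, z.1 ∈ Fset φ.toRingHom hφ F ∧
        (mX T (B \ {e0}) φ.toRingHom hφ).toFun z = y := by
  rw [← S.image]
  constructor
  · rintro ⟨z, hz, rfl⟩
    obtain ⟨z', rfl⟩ := (An.toBer_homeo (ι := ι) hU φ hφ).surjective z
    exact ⟨z', ⟨z'.2, hz⟩, rfl⟩
  · rintro ⟨z, ⟨h, hz⟩, rfl⟩
    exact ⟨_, hz, rfl⟩

variable [IsUltrametricDist K] [Finite E]

/-- The statement of section AR holds. -/
theorem stmtAR : StmtAR := fun K σ ι => ar_all K σ ι

/-- Exactness near `F`. -/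
theorem an_exact (S : ArrFib K T ρ e0 B c0 c F) (hU : IsAffineOpen U)
    (φ : A ≃+* Γ(X, U)) (hφ : ∀ c, φ (algebraMap K A c) = stK ι U c) [T2Space (An X ι)]
    [LocallyCompactSpace (An X ι)] (hC : (anLS X ι).CutOff) {p q : ℕ}
    (w : (anLS X ι).G p (q + 1))
    (hw : ∀ z ∈ Fset φ.toRingHom hφ F, (anLS X ι).ddS p (q + 1) z (w.1 z) = 0) :
    ∃ e : (anLS X ι).G p q, ∀ z ∈ Fset φ.toRingHom hφ F,
      w.1 z = (anLS X ι).ddS p q z (e.1 z) := by
  have : T2Space (Ber K (MvPolynomial (B \ {e0} : Set E) K)) := (BG.top K _).1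
  have : LocallyCompactSpace (Ber K (MvPolynomial (B \ {e0} : Set E) K)) :=
    ber_locallyCompact inferInstance
  exact (fib_of_arr S hU φ hφ).exact hC (ber_cutOff inferInstance) _
    (image_iff S φ hφ hU) (fun c' hc' => ((stmtAR K _ _ _ c0 c _ (fun b => S.ρpos _)
      (fun e => S.ρpos _) S.bd S.bd0).1 p q c' hc')) w hw

/-- Closed forms of type `(p,0)` near `F` are constant forms in the `log |T_e|`, `e ≠ e0`. -/
theorem an_zero (S : ArrFib K T ρ e0 B c0 c F) (hU : IsAffineOpen U)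
    (φ : A ≃+* Γ(X, U)) (hφ : ∀ c, φ (algebraMap K A c) = stK ι U c) {N : ℕ} (en : Fin N → E)
    (hen : Set.range en = {e | e ≠ e0}) (g : Fin N → Σ V : X.Opens, Γ(X, V))
    (hg : ∀ z ∈ Fset φ.toRingHom hφ F, ∀ j, z ∈ (anLS X ι).dom (g j))
    (hlf : ∀ z ∈ Fset φ.toRingHom hφ F, ∀ j, ∀ᶠ z' in 𝓝 z,
      An.absv (g j).1 (g j).2 z' = An.absv U (φ (T (en j))) z') {p : ℕ}
    (w : (anLS X ι).G p 0)
    (hw : ∀ z ∈ Fset φ.toRingHom hφ F, (anLS X ι).ddS p 0 z (w.1 z) = 0) :
    ∃ α : (Fin N → ℝ) [⋀^Fin p]→L[ℝ] ℝ, ∀ z ∈ Fset φ.toRingHom hφ F,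
      ∃ k : (anLS X ι).SFat z (cstR g α), w.1 z = (anLS X ι).germ (cstR g α) k := by
  classical
  have : T2Space (Ber K (MvPolynomial (B \ {e0} : Set E) K)) := (BG.top K _).1
  have : LocallyCompactSpace (Ber K (MvPolynomial (B \ {e0} : Set E) K)) :=
    ber_locallyCompact inferInstance
  have hne : ∀ j, en j ≠ e0 := fun j => by
    have : en j ∈ Set.range en := ⟨j, rfl⟩
    rw [hen] at this
    exact this
  let g' : Fin N → MvPolynomial (B \ {e0} : Set E) K := fun j =>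
    if hj : en j ∈ B then MvPolynomial.X ⟨en j, hj, hne j⟩ else
      linf (c0 ⟨en j, hj⟩) (c ⟨en j, hj⟩)
  have hg'1 : ∀ j (hj : en j ∈ B), g' j = MvPolynomial.X ⟨en j, hj, hne j⟩ := fun j hj => dif_pos hj
  have hg'2 : ∀ j (hj : en j ∉ B), g' j = linf (c0 ⟨en j, hj⟩) (c ⟨en j, hj⟩) := fun j hj =>
    dif_neg hj
  have hrange : Set.range g' = Set.range MvPolynomial.X ∪
      Set.range (fun i => linf (c0 i) (c i)) := by
    ext f
    constructor
    · rintro ⟨j, rfl⟩
      by_cases hj : en j ∈ B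
      · exact Or.inl ⟨_, (hg'1 j hj).symm⟩
      · exact Or.inr ⟨_, (hg'2 j hj).symm⟩
    · rintro (⟨b, rfl⟩ | ⟨e, rfl⟩)
      · obtain ⟨j, hj⟩ : b.1 ∈ Set.range en := by
          rw [hen]
          exact b.2.2
        refine ⟨j, ?_⟩
        have hjB : en j ∈ B := by rw [hj]; exact b.2.1
        rw [hg'1 j hjB]
        congr 1
        exact Subtype.ext hj
      · obtain ⟨j, hj⟩ : e.1 ∈ Set.range en := by
          rw [hen]
          intro h0
          apply e.2
          rw [h0]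
          exact S.e0_mem
        refine ⟨j, ?_⟩
        have hjB : en j ∉ B := by rw [hj]; exact e.2
        rw [hg'2 j hjB]
        have he : (⟨en j, hjB⟩ : (Bᶜ : Set E)) = e := Subtype.ext hj
        rw [he]
  have hfib := fib_of_arr S hU φ hφ
  have hy : ∀ y ∈ ArrSet (fun b : (B \ {e0} : Set E) => ρ b.1) c0 c (fun e => ρ e.1),
      ∀ j, y.v (g' j) = ρ (en j) := by
    intro y hy j
    by_cases hj : en j ∈ B
    · rw [hg'1 j hj]
      exact hy.1 _
    · rw [hg'2 j hj]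
      exact hy.2 _
  refine hfib.zero (ber_cutOff inferInstance) _ (image_iff S φ hφ hU) g' g ?_ hg ?_
    (fun c' hc' => ((stmtAR K _ _ _ c0 c _ (fun b => S.ρpos _)
      (fun e => S.ρpos _) S.bd S.bd0).2 N g' hrange p c' hc')) w hw
  · intro y hyA j
    show y.v (g' j) ≠ 0
    rw [hy y hyA j]
    exact (NNReal.coe_pos.2 (S.ρpos _)).ne'
  · intro z hz j
    have hzU : z ∈ An.opn ι U := hfib.sub hz
    have hzF : An.toBer φ.toRingHom hφ ⟨z, hzU⟩ ∈ F := by
      obtain ⟨h, hz⟩ := hz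
      exact hz
    -- near `z` the absolute values of `T_e` and of the form agree
    have key : ∀ᶠ z' : An.opn ι U in 𝓝 ⟨z, hzU⟩,
        An.absv U (φ (T (en j))) z'.1 =
          An.absv U (phX K T (B \ {e0}) φ.toRingHom (g' j)) z'.1 := by
      by_cases hj : en j ∈ B
      · refine Filter.Eventually.of_forall fun z' => ?_
        rw [hg'1 j hj]
        have e1 : phT (K := K) T (B \ {e0}) (MvPolynomial.X ⟨en j, hj, hne j⟩) = T (en j) := by
          unfold phT
          rw [MvPolynomial.aeval_X]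
        have e2 : phX K T (B \ {e0}) φ.toRingHom (MvPolynomial.X ⟨en j, hj, hne j⟩) =
            φ (T (en j)) := by
          rw [← e1]
          rfl
        rw [e2]
      · rw [hg'2 j hj]
        have hcl := S.close _ hzF ⟨en j, hj⟩
        have hT : (An.toBer φ.toRingHom hφ ⟨z, hzU⟩).v (T (en j)) = ρ (en j) :=
          S.val _ hzF (en j)
        have hlt : An.absv U (φ (T (en j)) - phX K T (B \ {e0}) φ.toRingHom
            (linf (c0 ⟨en j, hj⟩) (c ⟨en j, hj⟩))) z < An.absv U (φ (T (en j))) z := by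
          have e1 : An.absv U (φ (T (en j))) z = ρ (en j) := hT
          rw [e1]
          have e2 : φ (T (en j)) - phX K T (B \ {e0}) φ.toRingHom
              (linf (c0 ⟨en j, hj⟩) (c ⟨en j, hj⟩)) = φ (T (en j) -
                phT T (B \ {e0}) (linf (c0 ⟨en j, hj⟩) (c ⟨en j, hj⟩))) := by
            rw [map_sub]
            rfl
          rw [e2]
          exact hcl
        have hcont : ∀ f : Γ(X, U), Continuous fun z' : An.opn ι U => An.absv U f z'.1 :=
          fun f => (An.continuousOn_absv (ι := ι) U f).domRestrict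
        have h1 : ∀ᶠ z' : An.opn ι U in 𝓝 ⟨z, hzU⟩, An.absv U (φ (T (en j)) -
            phX K T (B \ {e0}) φ.toRingHom (linf (c0 ⟨en j, hj⟩) (c ⟨en j, hj⟩))) z'.1 <
              An.absv U (φ (T (en j))) z'.1 :=
          (hcont _).continuousAt.eventually_lt (hcont _).continuousAt hlt
        filter_upwards [h1] with z' h1
        exact Toric.absv_eq_of_sub_lt h1
    have key2 : ∀ᶠ z' in 𝓝 z, ∀ hz' : z' ∈ An.opn ι U, An.absv U (φ (T (en j))) z' =
        An.absv U (phX K T (B \ {e0}) φ.toRingHom (g' j)) z' := by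
      rw [← map_nhds_subtype_coe_eq_nhds (p := fun z' => z' ∈ An.opn ι U) hzU
        ((An.isOpen_opn U).mem_nhds hzU), Filter.eventually_map]
      exact key.mono fun z' h _ => h
    filter_upwards [hlf z hz j, key2] with z' h1 h2 hz'
    show Real.log (An.absv (g j).1 (g j).2 z') =
      Real.log (An.absv U (phX K T (B \ {e0}) φ.toRingHom (g' j)) z')
    rw [h1, h2 hz']

end arr

end X3

end Pool.Agent.TD
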