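import Pool.Agent.TD.X.Smooth
import Pool.Agent.TD.Y.Restr
import Pool.Agent.TD.MT.C5

/-!
# The logarithmic space of a smooth tropicalization is locally star-shaped
-/

open scoped ContDiff Topology

namespace Pool.Agent.TD

theorem bergM_mul {E : Type} {M : Matroid E} {y : E → ℝ} (hy : BergM M y) {s : ℝ}
    (hs : 0 ≤ s) : BergM M (fun e => s * y e) := by
  intro C hC e he
  obtain ⟨f, hf, hfe, h⟩ := hy C hC e he
  exact ⟨f, hf, hfe, mul_le_mul_of_nonneg_left h hs⟩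

/-- The Bergman fan is locally star-shaped. -/
theorem bergM_seg {E : Type} [Finite E] {M : Matroid E} (hE : M.E = Set.univ)
    (hl : ∀ e, M.Indep {e}) {v : E → ℝ} (hv : BergM M v) : ∃ δ : ℝ, 0 < δ ∧ ∀ y : E → ℝ,
      (∀ e, |y e - v e| < δ) → BergM M y → ∀ s t : ℝ, 0 ≤ s → 0 ≤ t → s + t = 1 →
        BergM M (fun e => s * v e + t * y e) := by
  obtain ⟨M', -, -, δ, hδ, h⟩ := exists_star hE hl hv
  refine ⟨δ, hδ, fun y hy hyM s t hs ht hst => ?_⟩
  have h1 : BergM M' (fun e => y e - v e) := by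
    rw [← h _ hy]
    have e1 : v + (fun e => y e - v e) = y := by
      funext e
      simp
    rw [e1]
    exact hyM
  have h2 := bergM_mul h1 ht
  have ht1 : t ≤ 1 := by linarith
  have h3 : ∀ e, |t * (y e - v e)| < δ := by
    intro e
    rw [abs_mul, abs_of_nonneg ht]
    exact lt_of_le_of_lt (mul_le_of_le_one_left (abs_nonneg _) ht1) (hy e)
  have h4 := (h _ h3).2 h2
  have e2 : (fun e => s * v e + t * y e) = v + fun e => t * (y e - v e) := by
    funext e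
    have : s = 1 - t := by linarith
    rw [this, Pi.add_apply]
    ring
  rw [e2]
  exact h4

namespace TChart

variable {n : ℕ} {F : Fan n} {S : Set (TropPt F)} {C : TChart F}

theorem starAt (hC : C.Ok S) {w : TropPt F} (hw : w ∈ S) (hwU : w ∈ C.U) :
    ((tropLS F).restr S).StarAt ⟨w, hw⟩ := by
  classical
  intro u hu V hV
  have hu' : ∀ m ∈ u, m ∈ perpM w.cone.1 := hu
  have hwSU : w ∈ S ∩ C.U := ⟨hw, hwU⟩
  -- the neighbourhood
  have key : ∀ p : TropPt F → Prop, (∀ᶠ b in 𝓝[S] w, p b) ↔ ∀ᶠ b : S in 𝓝 ⟨w, hw⟩, p b := by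
    intro p
    rw [nhdsWithin_eq_map_subtype_coe hw, Filter.eventually_map]
  have hV' : ∀ᶠ b in 𝓝[S] w, ∃ h : b ∈ S, (⟨b, h⟩ : S) ∈ V := by
    rw [key]
    exact Filter.mem_of_superset hV fun b hb => ⟨b.2, hb⟩
  have hgen : ∀ m : u, ∃ (a : Fin C.k → ℤ) (c : Fin (C.r + 1) → ℤ) (d : ℝ),
      (∀ i, (C.f w).1 i = 0 → a i = 0) ∧
    ∀ᶠ b' in 𝓝[S] w,
      lgT m.1 b' = d + ∑ i, a i * Real.log ((C.f b').1 i) + ∑ e, c e * (C.f b').2 e := fun m =>
    hC.gen w hwSU m.1 (hu' m.1 m.2)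
  choose a c d ha hform using hgen
  have hform' : ∀ᶠ b' in 𝓝[S] w, ∀ m : u, lgT m.1 b' = d m +
      ∑ i, a m i * Real.log ((C.f b').1 i) + ∑ e, c m e * (C.f b').2 e :=
    Filter.eventually_all.2 hform
  have hdom : ∀ᶠ b' in 𝓝[S] w, ∀ m ∈ u, m ∈ perpM b'.cone.1 := by
    rw [Filter.eventually_all_finset]
    intro m hm
    exact mem_nhdsWithin_of_mem_nhds (((tropLS F).isOpen_dom m).mem_nhds (hu' m hm))
  obtain ⟨hx0, hvM, hv0⟩ : C.f w ∈ TMod C.k C.r C.M := (hC.homeo.mapf w hwSU).1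
  have hwV : C.f w ∈ C.V := (hC.homeo.mapf w hwSU).2
  have hIm : C.Im ∈ 𝓝[TMod C.k C.r C.M] (C.f w) :=
    Filter.inter_mem self_mem_nhdsWithin
      (mem_nhdsWithin_of_mem_nhds (hC.homeo.openV.mem_nhds hwV))
  have hgw : C.g (C.f w) = w := hC.homeo.gf w hwSU
  have hgt : Filter.Tendsto C.g (𝓝[TMod C.k C.r C.M] (C.f w)) (𝓝[S] w) := by
    have h1 : ContinuousWithinAt C.g C.Im (C.f w) := hC.homeo.contg _ (hC.homeo.mapf w hwSU)
    have h2 : Filter.Tendsto C.g (𝓝[C.Im] (C.f w)) (𝓝[S] w) := by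
      refine tendsto_nhdsWithin_iff.2 ⟨?_, ?_⟩
      · have h3 : Filter.Tendsto C.g (𝓝[C.Im] (C.f w)) (𝓝 (C.g (C.f w))) := h1
        rwa [hgw] at h3
      · filter_upwards [self_mem_nhdsWithin] with v hv
        exact (hC.homeo.mapg v hv).1
    refine h2.mono_left ?_
    exact nhdsWithin_le_of_mem hIm
  -- a box
  obtain ⟨δ1, hδ1, hseg⟩ := bergM_seg hC.ground hC.loopless hvM
  have hall := hgt.eventually (hV'.and (hform'.and hdom))
  have hboth : ∀ᶠ p in 𝓝[TMod C.k C.r C.M] (C.f w), p ∈ C.Im ∧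
      (∃ h : C.g p ∈ S, (⟨C.g p, h⟩ : S) ∈ V) ∧ (∀ m : u, lgT m.1 (C.g p) = d m +
      ∑ i, a m i * Real.log ((C.f (C.g p)).1 i) + ∑ e, c m e * (C.f (C.g p)).2 e) ∧
      ∀ m ∈ u, m ∈ perpM (C.g p).cone.1 := by
    filter_upwards [hIm, hall] with p h1 h2
    exact ⟨h1, h2.1, h2.2.1, h2.2.2⟩
  obtain ⟨O, hO, hwO, hOs⟩ := mem_nhdsWithin.1 hboth
  obtain ⟨η, hη, hball⟩ := Metric.isOpen_iff.1 hO _ hwO
  obtain ⟨ε, hε, hεδ, hεη, hexp⟩ : ∃ ε : ℝ, 0 < ε ∧ ε < δ1 ∧ ε < η ∧ ∀ i : Fin C.k, ∀ x : ℝ,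
      |x - Real.log ((C.f w).1 i)| < ε →
        |Real.exp x - Real.exp (Real.log ((C.f w).1 i))| < η := by
    have h2 : ∀ᶠ ε in 𝓝[>] (0 : ℝ), ∀ i : Fin C.k, ∀ x : ℝ,
        |x - Real.log ((C.f w).1 i)| < ε →
          |Real.exp x - Real.exp (Real.log ((C.f w).1 i))| < η := by
      rw [Filter.eventually_all]
      intro i
      obtain ⟨η', hη', h3⟩ := Metric.continuousAt_iff.1
        (Real.continuous_exp.continuousAt (x := Real.log ((C.f w).1 i))) η hη
      refine Filter.mem_of_superset (Ioo_mem_nhdsGT hη') ?_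
      intro ε hε x hx
      have h4 := h3 (x := x) (by rw [Real.dist_eq]; exact hx.trans hε.2)
      rwa [Real.dist_eq] at h4
    have h5 : ∀ᶠ ε in 𝓝[>] (0 : ℝ), ε ∈ Set.Ioo 0 (min δ1 η) :=
      Ioo_mem_nhdsGT (lt_min hδ1 hη)
    obtain ⟨ε, h2, h5⟩ := (h2.and h5).exists
    exact ⟨ε, h5.1, lt_of_lt_of_le h5.2 (min_le_left _ _), lt_of_lt_of_le h5.2 (min_le_right _ _),
      h2⟩
  set B : Set (TSp C.k C.r) := {p | (∀ i, (C.f w).1 i = 0 → p.1 i < ε) ∧
    (∀ i, (C.f w).1 i ≠ 0 → 0 < p.1 i ∧ |Real.log (p.1 i) - Real.log ((C.f w).1 i)| < ε) ∧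
    ∀ e, |p.2 e - (C.f w).2 e| < ε} with hBdef
  have hBO : ∀ p ∈ B, p ∈ TMod C.k C.r C.M → p ∈ O := by
    rintro p ⟨hp1, hp2, hp3⟩ hpM
    apply hball
    rw [Metric.mem_ball, Prod.dist_eq, max_lt_iff, dist_pi_lt_iff hη, dist_pi_lt_iff hη]
    refine ⟨fun i => ?_, fun e => ?_⟩
    · rw [Real.dist_eq]
      by_cases hi : (C.f w).1 i = 0
      · rw [hi, sub_zero, abs_of_nonneg (hpM.1 i)]
        exact (hp1 i hi).trans hεη
      · have h1 := hexp i (Real.log (p.1 i)) (hp2 i hi).2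
        have h2 : 0 < (C.f w).1 i := lt_of_le_of_ne (hx0 i) (Ne.symm hi)
        rwa [Real.exp_log (hp2 i hi).1, Real.exp_log h2] at h1
    · rw [Real.dist_eq]
      exact (hp3 e).trans hεη
  have hB : B ∈ 𝓝 (C.f w) := by
    have hc1 : ∀ i, Continuous fun q : TSp C.k C.r => q.1 i := fun i =>
      (continuous_apply _).comp continuous_fst
    have hc2 : ∀ e, Continuous fun q : TSp C.k C.r => q.2 e := fun e =>
      (continuous_apply _).comp continuous_snd
    have h1 : ∀ᶠ p : TSp C.k C.r in 𝓝 (C.f w), ∀ i, (C.f w).1 i = 0 → p.1 i < ε := by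
      rw [Filter.eventually_all]
      intro i
      by_cases hi : (C.f w).1 i = 0
      · have h2 := (hc1 i).tendsto (C.f w)
        simp only [hi] at h2
        exact (h2.eventually (gt_mem_nhds hε)).mono fun p hp _ => hp
      · exact Filter.Eventually.of_forall fun p h => absurd h hi
    have h2 : ∀ᶠ p : TSp C.k C.r in 𝓝 (C.f w), ∀ i, (C.f w).1 i ≠ 0 →
        0 < p.1 i ∧ |Real.log (p.1 i) - Real.log ((C.f w).1 i)| < ε := by
      rw [Filter.eventually_all]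
      intro i
      by_cases hi : (C.f w).1 i = 0
      · exact Filter.Eventually.of_forall fun p h => absurd hi h
      · have h2 : 0 < (C.f w).1 i := lt_of_le_of_ne (hx0 i) (Ne.symm hi)
        have h3 := (hc1 i).tendsto (C.f w)
        have h4 : ContinuousAt (fun q : TSp C.k C.r => Real.log (q.1 i)) (C.f w) :=
          (hc1 i).continuousAt.log hi
        have h5 := Metric.tendsto_nhds.1 h4.tendsto ε hε
        filter_upwards [h3.eventually (lt_mem_nhds h2), h5] with p k1 k2 _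
        rw [Real.dist_eq] at k2
        exact ⟨k1, k2⟩
    have h3 : ∀ᶠ p : TSp C.k C.r in 𝓝 (C.f w), ∀ e, |p.2 e - (C.f w).2 e| < ε := by
      rw [Filter.eventually_all]
      intro e
      have h5 := Metric.tendsto_nhds.1 ((hc2 e).tendsto (C.f w)) ε hε
      filter_upwards [h5] with p k2
      rwa [Real.dist_eq] at k2
    filter_upwards [h1, h2, h3] with p k1 k2 k3
    exact ⟨k1, k2, k3⟩
  -- the neighbourhood
  set V' : Set S := {b | b.1 ∈ C.U ∧ C.f b.1 ∈ B} with hV'def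
  have hV'm : V' ∈ 𝓝 (⟨w, hw⟩ : S) := by
    have h1 : ∀ᶠ b in 𝓝[S] w, b ∈ C.U ∧ C.f b ∈ B := by
      have h2 : Filter.Tendsto C.f (𝓝[S ∩ C.U] w) (𝓝 (C.f w)) := hC.homeo.contf w hwSU
      have h3 : S ∩ C.U ∈ 𝓝[S] w := Filter.inter_mem self_mem_nhdsWithin
        (mem_nhdsWithin_of_mem_nhds (hC.homeo.openU.mem_nhds hwU))
      have h4 : 𝓝[S] w ≤ 𝓝[S ∩ C.U] w := nhdsWithin_le_of_mem h3
      filter_upwards [h4 (h2 hB), h3] with b k1 k2
      exact ⟨k2.2, k1⟩
    exact (key _).1 h1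
  have hgood : ∀ b ∈ V', C.f b.1 ∈ O ∩ TMod C.k C.r C.M := by
    rintro b ⟨hbU, hbB⟩
    have h1 := (hC.homeo.mapf b.1 ⟨b.2, hbU⟩).1
    exact ⟨hBO _ hbB h1, h1⟩
  have hgf : ∀ b ∈ V', C.g (C.f b.1) = b.1 := fun b hb => hC.homeo.gf b.1 ⟨b.2, hb.1⟩
  have hwV' : (⟨w, hw⟩ : S) ∈ V' := mem_of_mem_nhds hV'm
  have hval : ∀ b ∈ V', ∀ m : u, ((tropLS F).restr S).trop u b m = d m +
      ∑ i, a m i * Real.log ((C.f b.1).1 i) + ∑ e, c m e * (C.f b.1).2 e := by
    intro b hb m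
    have h1 := (hOs (hgood b hb)).2.2.1 m
    rw [hgf b hb] at h1
    exact h1
  refine ⟨V', hV'm, ?_, ?_, ?_⟩
  · intro b hb
    obtain ⟨h, h1⟩ := (hOs (hgood b hb)).2.1
    have e : (⟨C.g (C.f b.1), h⟩ : S) = b := Subtype.ext (hgf b hb)
    rwa [e] at h1
  · intro m hm b hb
    have h1 := (hOs (hgood b hb)).2.2.2 m hm
    rw [hgf b hb] at h1
    exact h1
  · rintro _ ⟨b, hb, rfl⟩ s t hs ht hst
    have hbM := (hgood b hb).2
    obtain ⟨hb1, hb2, hb3⟩ := hb.2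
    have hs1 : s = 1 - t := by linarith
    have ht1 : t ≤ 1 := by linarith
    let p : TSp C.k C.r := (fun i => if (C.f w).1 i = 0 then 0 else
        Real.exp (s * Real.log ((C.f w).1 i) + t * Real.log ((C.f b.1).1 i)),
      fun e => s * (C.f w).2 e + t * (C.f b.1).2 e)
    have hpM : p ∈ TMod C.k C.r C.M := by
      refine ⟨fun i => ?_, ?_, ?_⟩
      · show 0 ≤ (if (C.f w).1 i = 0 then (0 : ℝ) else
          Real.exp (s * Real.log ((C.f w).1 i) + t * Real.log ((C.f b.1).1 i)))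
        split_ifs
        · exact le_rfl
        · exact (Real.exp_pos _).le
      · exact hseg _ (fun e => (hb3 e).trans hεδ) hbM.2.1 s t hs ht hst
      · show s * (C.f w).2 0 + t * (C.f b.1).2 0 = 0
        rw [hv0, hbM.2.2]
        ring
    have hp1 : ∀ i, (C.f w).1 i ≠ 0 → Real.log (p.1 i) =
        s * Real.log ((C.f w).1 i) + t * Real.log ((C.f b.1).1 i) := by
      intro i hi
      show Real.log (if (C.f w).1 i = 0 then (0 : ℝ) else
          Real.exp (s * Real.log ((C.f w).1 i) + t * Real.log ((C.f b.1).1 i))) = _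
      rw [if_neg hi, Real.log_exp]
    have habs : ∀ x y : ℝ, |y - x| < ε → |s * x + t * y - x| < ε := by
      intro x y h
      have e : s * x + t * y - x = t * (y - x) := by rw [hs1]; ring
      rw [e, abs_mul, abs_of_nonneg ht]
      exact lt_of_le_of_lt (mul_le_of_le_one_left (abs_nonneg _) ht1) h
    have hpB : p ∈ B := by
      refine ⟨fun i hi => ?_, fun i hi => ⟨?_, ?_⟩, fun e => ?_⟩
      · show (if (C.f w).1 i = 0 then (0 : ℝ) else
          Real.exp (s * Real.log ((C.f w).1 i) + t * Real.log ((C.f b.1).1 i))) < ε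
        rw [if_pos hi]
        exact hε
      · show 0 < (if (C.f w).1 i = 0 then (0 : ℝ) else
          Real.exp (s * Real.log ((C.f w).1 i) + t * Real.log ((C.f b.1).1 i)))
        rw [if_neg hi]
        exact Real.exp_pos _
      · rw [hp1 i hi]
        exact habs _ _ (hb2 i hi).2
      · exact habs _ _ (hb3 e)
    have hpO := hOs ⟨hBO p hpB hpM, hpM⟩
    have hgp := hC.homeo.mapg p hpO.1
    have hfg : C.f (C.g p) = p := hC.homeo.fg p hpO.1
    have hpV' : (⟨C.g p, hgp.1⟩ : S) ∈ V' := by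
      refine ⟨hgp.2, ?_⟩
      show C.f (C.g p) ∈ B
      rw [hfg]
      exact hpB
    refine ⟨⟨C.g p, hgp.1⟩, hpV', ?_⟩
    funext m
    rw [Pi.add_apply, Pi.smul_apply, Pi.smul_apply, hval _ hpV' m, hval _ hb m, hval _ hwV' m]
    show d m + ∑ i, a m i * Real.log ((C.f (C.g p)).1 i) + ∑ e, c m e * (C.f (C.g p)).2 e = _
    rw [hfg]
    have e1 : ∑ i, (a m i : ℝ) * Real.log (p.1 i) =
        s * ∑ i, (a m i : ℝ) * Real.log ((C.f w).1 i) +
          t * ∑ i, (a m i : ℝ) * Real.log ((C.f b.1).1 i) := by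
      rw [Finset.mul_sum, Finset.mul_sum, ← Finset.sum_add_distrib]
      refine Finset.sum_congr rfl fun i _ => ?_
      by_cases hi : (C.f w).1 i = 0
      · rw [ha m i hi]
        simp
      · rw [hp1 i hi]
        ring
    have e2 : ∑ e, (c m e : ℝ) * p.2 e =
        s * ∑ e, (c m e : ℝ) * (C.f w).2 e + t * ∑ e, (c m e : ℝ) * (C.f b.1).2 e := by
      rw [Finset.mul_sum, Finset.mul_sum, ← Finset.sum_add_distrib]
      refine Finset.sum_congr rfl fun e _ => ?_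
      show (c m e : ℝ) * (s * (C.f w).2 e + t * (C.f b.1).2 e) = _
      ring
    rw [e1, e2, smul_eq_mul, smul_eq_mul]
    have e3 : d m = s * d m + t * d m := by rw [hs1]; ring
    linear_combination e3

end TChart

/-- The forms on a smooth tropicalization: the space is locally star-shaped at every point. -/
theorem Toric.SmoothX.starAt {K : Type} [NormedField K] {X Y : AlgebraicGeometry.Scheme.{0}}
    {n : ℕ} {F : Fan n} {ι : Str K Y} {T : Toric F Y ι} {φ : X ⟶ Y} (h : T.SmoothX φ)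
    (w : T.TropX φ) : (T.lsX φ).StarAt w := by
  obtain ⟨C, hwU, hC⟩ := h.chart w.1 w.2
  exact TChart.starAt hC w.2 hwU

end Pool.Agent.TD
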