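import Pool.Agent.TD.N.Defs
import Pool.Agent.TD.F.Cst

/-!
# The statement of section AR (PAPER2.md) used by X3
-/

open scoped ContDiff Topology NNReal

namespace Pool.Agent.TD

/-- (AR) forms near the arrangement fibres. -/
def StmtAR : Prop := ∀ (K σ ι : Type) [NormedField K] [IsUltrametricDist K] [Finite σ] [Finite ι]
  (ρ : σ → ℝ≥0) (a0 : ι → K) (a : ι → σ → K) (r : ι → ℝ≥0), (∀ b, 0 < ρ b) → (∀ i, 0 < r i) →
  (∀ i b, ‖a i b‖₊ * ρ b ≤ r i) → (∀ i, ‖a0 i‖₊ ≤ r i) →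
  (∀ (p q : ℕ) (c : (berLS K (MvPolynomial σ K)).G p (q + 1)),
    (∀ y ∈ ArrSet ρ a0 a r, (berLS K (MvPolynomial σ K)).ddS p (q + 1) y (c.1 y) = 0) →
    ∃ e : (berLS K (MvPolynomial σ K)).G p q, ∀ y ∈ ArrSet ρ a0 a r,
      c.1 y = (berLS K (MvPolynomial σ K)).ddS p q y (e.1 y)) ∧
  ∀ (N : ℕ) (g : Fin N → MvPolynomial σ K),
    Set.range g = Set.range MvPolynomial.X ∪ Set.range (fun i => linf (a0 i) (a i)) →
    ∀ (p : ℕ) (c : (berLS K (MvPolynomial σ K)).G p 0),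
      (∀ y ∈ ArrSet ρ a0 a r, (berLS K (MvPolynomial σ K)).ddS p 0 y (c.1 y) = 0) →
      ∃ α : (Fin N → ℝ) [⋀^Fin p]→L[ℝ] ℝ, ∀ y ∈ ArrSet ρ a0 a r,
        ∃ h : (berLS K (MvPolynomial σ K)).SFat y (cstR g α),
          c.1 y = (berLS K (MvPolynomial σ K)).germ (cstR g α) h

end Pool.Agent.TD
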