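import Pool.Agent.TD.U.Defs
import Pool.Agent.TD.Y.Restr

/-!
# X3: transfer of forms along a compact fibre (PAPER2, section X, step X3)

`m : Mor (L.restr W) L'` a morphism defined on the open subset `W`, `F ⊆ W` compact, `m` injective
on `F`, open and affine at the points of `F`.  Sections of `L` near `F` correspond to sections of
`L'` near `m(F)`.
-/

open scoped ContDiff Topology

namespace Pool.Agent.TD

namespace X3

variable {X Φ X' Φ' : Type} [TopologicalSpace X] [TopologicalSpace X'] {L : LogSpace X Φ}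
  {L' : LogSpace X' Φ'}

/-- The hypotheses on the fibre `F`. -/
structure Fib {W : Set X} (m : Mor (L.restr W) L') (F : Set X) : Prop where
  isOpen : IsOpen W
  sub : F ⊆ W
  cpt : IsCompact F
  aff : ∀ z : W, z.1 ∈ F → m.AffAt z
  opn : ∀ z : W, z.1 ∈ F → ∀ V ∈ 𝓝 z, m.toFun '' V ∈ 𝓝 (m.toFun z)
  inj : ∀ z z' : W, z.1 ∈ F → z'.1 ∈ F → m.toFun z = m.toFun z' → z = z'

/-- `c` and `c'` correspond to each other on `F`. -/
def Rel {W : Set X} (m : Mor (L.restr W) L') (F : Set X) {p q : ℕ} (c : L.G p q)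
    (c' : L'.G p q) : Prop :=
  ∀ z : W, z.1 ∈ F → m.pullS p q z (c'.1 (m.toFun z)) = (L.incl W).pullS p q z (c.1 z.1)

variable {W : Set X} {m : Mor (L.restr W) L'} {F : Set X} (h : Fib m F) {p q : ℕ}

include h

theorem Fib.pullS_inj (z : W) (hz : z.1 ∈ F) : Function.Injective (m.pullS p q z) :=
  Mor.pullS_injective _ (h.aff z hz) (h.opn z hz)

theorem Fib.pullS_surj (z : W) (hz : z.1 ∈ F) : Function.Surjective (m.pullS p q z) :=
  Mor.pullS_surjective _ (h.aff z hz)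

/-- The fibre as a subset of `W`. -/
theorem Fib.isCompact_pre : IsCompact (Subtype.val ⁻¹' F : Set W) := by
  rw [Subtype.isCompact_iff]
  have : (Subtype.val '' (Subtype.val ⁻¹' F : Set W)) = F := by
    rw [Subtype.image_preimage_coe]
    exact Set.inter_eq_right.2 h.sub
  rw [this]
  exact h.cpt

theorem Fib.isCompact_image : IsCompact (m.toFun '' (Subtype.val ⁻¹' F)) :=
  h.isCompact_pre.image m.cont

/-- Continuity of the inverse of `F → m(F)`. -/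
theorem Fib.inv_cont [T2Space X'] (z0 : W) (hz0 : z0.1 ∈ F) {V : Set W} (hV : V ∈ 𝓝 z0) :
    ∀ᶠ y in 𝓝 (m.toFun z0), ∀ z : W, z.1 ∈ F → m.toFun z = y → z ∈ V := by
  obtain ⟨V', hV'V, hV'o, hz0V'⟩ := mem_nhds_iff.1 hV
  have hK : IsCompact (m.toFun '' ((Subtype.val ⁻¹' F) \ V')) :=
    (h.isCompact_pre.diff hV'o).image m.cont
  have hn : m.toFun z0 ∉ m.toFun '' ((Subtype.val ⁻¹' F) \ V') := by
    rintro ⟨z, ⟨hzF, hzV⟩, hz⟩
    have e := h.inj z z0 hzF hz0 hz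
    subst e
    exact hzV hz0V'
  filter_upwards [hK.isClosed.isOpen_compl.mem_nhds hn] with y hy z hz hzy
  by_contra hzV
  exact hy ⟨z, ⟨hz, fun h' => hzV (hV'V h')⟩, hzy⟩

/-- Every section near `F` comes from a section near `m(F)`. -/
theorem Fib.push [T2Space X'] [LocallyCompactSpace X'] (hC : L'.CutOff) (c : L.G p q) :
    ∃ c' : L'.G p q, Rel m F c c' := by
  classical
  have hex : ∀ y : X', ∃ x : L'.Stalk p q y, ∀ z : W, z.1 ∈ F → ∀ e : m.toFun z = y,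
      m.pullY e p q x = (L.incl W).pullS p q z (c.1 z.1) := by
    intro y
    by_cases hy : ∃ z : W, z.1 ∈ F ∧ m.toFun z = y
    · obtain ⟨z, hz, rfl⟩ := hy
      obtain ⟨x, hx⟩ := h.pullS_surj (p := p) (q := q) z hz ((L.incl W).pullS p q z (c.1 z.1))
      refine ⟨x, fun z' hz' e => ?_⟩
      obtain rfl := h.inj z' z hz' hz e
      exact hx
    · exact ⟨0, fun z hz e => absurd ⟨z, hz, e⟩ hy⟩
  choose sy hsy using hex
  obtain ⟨c', hc'⟩ := L'.extend hC h.isCompact_image sy (by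
    rintro _ ⟨z0, hz0', rfl⟩
    have hz0 : z0.1 ∈ F := hz0'
    obtain ⟨θ1, hθ1⟩ := c.2 z0.1
    obtain ⟨k1, e1⟩ := hθ1.self_of_nhds
    obtain ⟨x, hx⟩ := h.pullS_surj (p := p) (q := q) z0 hz0 ((L.incl W).pullS p q z0 (c.1 z0.1))
    obtain ⟨θ, k, rfl⟩ := L'.exists_germ x
    rw [Mor.pullS_germ, e1] at hx
    have hx2 : (L.restr W).germ (pullR m.ix θ) (m.sfat k) =
        (L.restr W).germ (pullR (L.incl W).ix θ1) ((L.incl W).sfat (z := z0) k1) := hx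
    rw [LogSpace.germ_eq_iff] at hx2
    have hθ1' : ∀ᶠ z : W in 𝓝 z0, ∃ h : L.SFat z.1 θ1, c.1 z.1 = L.germ θ1 h :=
      continuous_subtype_val.continuousAt.eventually hθ1
    have hinv := h.inv_cont z0 hz0 (hx2.nhds.and hθ1')
    refine ⟨θ, (hinv.and k.nhds).mono ?_⟩
    rintro y ⟨hy, ky⟩ ⟨z, hz, rfl⟩
    obtain ⟨hv, h', e'⟩ := hy z hz rfl
    refine ⟨ky, ?_⟩
    apply h.pullS_inj z hz
    have e2 := hsy _ z hz rfl
    rw [Mor.pullY_rfl] at e2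
    rw [e2, e', Mor.pullS_germ]
    exact ((LogSpace.germ_eq_iff _ _ _).2 hv).symm)
  refine ⟨c', fun z hz => ?_⟩
  rw [hc' _ ⟨z, hz, rfl⟩, ← Mor.pullY_rfl]
  exact hsy _ z hz rfl

/-- Every section near `m(F)` gives a section near `F`. -/
theorem Fib.pull [T2Space X] [LocallyCompactSpace X] (hC : L.CutOff) (c' : L'.G p q) :
    ∃ c : L.G p q, Rel m F c c' := by
  classical
  have hex : ∀ z : X, ∃ x : L.Stalk p q z, ∀ hz : z ∈ W,
      m.pullS p q ⟨z, hz⟩ (c'.1 (m.toFun ⟨z, hz⟩)) = (L.incl W).pullS p q ⟨z, hz⟩ x := by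
    intro z
    by_cases hz : z ∈ W
    · obtain ⟨x, hx⟩ := (L.incl_bij (p := p) (q := q) h.isOpen ⟨z, hz⟩).2
        (m.pullS p q ⟨z, hz⟩ (c'.1 (m.toFun ⟨z, hz⟩)))
      exact ⟨x, fun _ => hx.symm⟩
    · exact ⟨0, fun h' => absurd h' hz⟩
  choose sz hsz using hex
  obtain ⟨c, hc⟩ := L.extend hC h.cpt sz (by
    intro z0 hz0
    have hzW : z0 ∈ W := h.sub hz0
    obtain ⟨θ, hθ⟩ := c'.2 (m.toFun ⟨z0, hzW⟩)
    have hev := (m.cont.continuousAt (x := ⟨z0, hzW⟩)).eventually hθ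
    have hev2 : ∀ᶠ z in 𝓝 z0, ∃ hz : z ∈ W, ∃ h' : L'.SFat (m.toFun ⟨z, hz⟩) θ,
        c'.1 (m.toFun ⟨z, hz⟩) = L'.germ θ h' := by
      rw [← map_nhds_subtype_coe_eq_nhds (p := fun z : X => z ∈ W) hzW
        (h.isOpen.mem_nhds hzW), Filter.eventually_map]
      exact hev.mono fun z hz => ⟨z.2, hz⟩
    refine ⟨pullR m.ix θ, hev2.mono ?_⟩
    rintro z ⟨hz, h', e'⟩ -
    have k : L.SFat z (pullR m.ix θ) := m.sfat h'
    refine ⟨k, ?_⟩
    apply (L.incl_bij (p := p) (q := q) h.isOpen ⟨z, hz⟩).1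
    rw [← hsz z hz, e']
    rfl)
  refine ⟨c, fun z hz => ?_⟩
  rw [hc z.1 hz]
  exact hsz z.1 z.2

/-- Closedness is transferred. -/
theorem Fib.closed {c : L.G p q} {c' : L'.G p q} (hcc : Rel m F c c')
    (hc : ∀ z ∈ F, L.ddS p q z (c.1 z) = 0) (z : W) (hz : z.1 ∈ F) :
    L'.ddS p q (m.toFun z) (c'.1 (m.toFun z)) = 0 := by
  apply h.pullS_inj z hz (p := p) (q := q + 1)
  rw [Mor.pullS_ddS, hcc z hz, map_zero]
  have h1 := (L.incl W).pullS_ddS (z := z) (c.1 z.1)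
  have h2 : L.ddS p q ((L.incl W).toFun z) (c.1 z.1) = 0 := hc z.1 hz
  rw [h2, map_zero] at h1
  exact h1.symm

/-- Exactness near `F` from exactness near `m(F)`. -/
theorem Fib.exact [T2Space X] [LocallyCompactSpace X] [T2Space X'] [LocallyCompactSpace X']
    (hC : L.CutOff) (hC' : L'.CutOff) (Z : Set X')
    (hZ : ∀ y, y ∈ Z ↔ ∃ z : W, z.1 ∈ F ∧ m.toFun z = y)
    (hex : ∀ c' : L'.G p (q + 1), (∀ y ∈ Z, L'.ddS p (q + 1) y (c'.1 y) = 0) →
      ∃ e' : L'.G p q, ∀ y ∈ Z, c'.1 y = L'.ddS p q y (e'.1 y))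
    (c : L.G p (q + 1)) (hc : ∀ z ∈ F, L.ddS p (q + 1) z (c.1 z) = 0) :
    ∃ e : L.G p q, ∀ z ∈ F, c.1 z = L.ddS p q z (e.1 z) := by
  obtain ⟨c', hcc⟩ := h.push hC' c
  obtain ⟨e', he'⟩ := hex c' (fun y hy => by
    obtain ⟨z, hz, rfl⟩ := (hZ y).1 hy
    exact h.closed hcc hc z hz)
  obtain ⟨e, he⟩ := h.pull hC e'
  refine ⟨e, fun z hz => ?_⟩
  have hzW : z ∈ W := h.sub hz
  apply (L.incl_bij (p := p) (q := q + 1) h.isOpen ⟨z, hzW⟩).1
  rw [← hcc ⟨z, hzW⟩ hz, he' _ ((hZ _).2 ⟨⟨z, hzW⟩, hz, rfl⟩), Mor.pullS_ddS, he ⟨z, hzW⟩ hz]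
  exact ((L.incl W).pullS_ddS (z := ⟨z, hzW⟩) (e.1 z)).symm

end X3

end Pool.Agent.TD
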